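import Pool.Agent.H343.QF.StQ

set_option autoImplicit false
set_option linter.unusedSectionVars false

/-! R2 of the project QF of helper343: small projections of the translates of the axis. -/

namespace Pool.Agent.H767.QF

open Pool.Agent.TH68 Pool.Agent.Helper97.Hyp Pool.Agent.H343.AN Pool.Agent.H343.QF

section basics

variable {Γ : Type} [Group Γ] {W : WNorm Γ} {a b : Γ} {δ D R : ℝ} {X : ℤ → Γ}
  {lam : ℤ → ℕ} {s : ℤ → Γ} {E Λ : ℕ}

lemma hyp5_smul (h : Hyp5 W a b δ D R X lam s E Λ) (x : Γ) :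
    Hyp5 W a b δ D R (fun j => x * X j) lam s E Λ where
  good := h.good
  cor :=
    { step := fun j => by
        show x * X (j + 1) = x * X j * a ^ lam j * s j
        rw [h.cor.step]; group
      lo := h.cor.lo
      hi := h.cor.hi
      short := h.cor.short
      nm := h.cor.nm }
  hR := h.hR
  hE := h.hE
  hΛ := h.hΛ

lemma U_pos (h : Hyp5 W a b δ D R X lam s E Λ) : 0 < D + R := by
  have h1 := h.good.one
  have h2 := h.good.le
  have h3 := h.hR
  linarith

lemma R_le (h : Hyp5 W a b δ D R X lam s E Λ) : R ≤ Λ := by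
  have h1 := h.good.one
  have h2 := h.good.le
  have h3 := h.hR
  have h4 := h.hE
  have h5 : (E : ℝ) ≤ Λ := by exact_mod_cast h.hΛ
  linarith

lemma E_pos (h : Hyp5 W a b δ D R X lam s E Λ) : (0 : ℝ) < E := by
  have h1 := U_pos h
  have h4 := h.hE
  linarith

lemma L_pos (h : Hyp5 W a b δ D R X lam s E Λ) : (0 : ℝ) < Λ := by
  have h1 := E_pos h
  have h5 : (E : ℝ) ≤ Λ := by exact_mod_cast h.hΛ
  linarith

lemma step_dist (h : Hyp5 W a b δ D R X lam s E Λ) (j : ℤ) :
    dist (pt W (X j)) (pt W (X (j + 1))) ≤ 2 * Λ := by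
  rw [dist_def, out_pt, out_pt, h.cor.step]
  have e : (X j)⁻¹ * (X j * a ^ lam j * s j) = a ^ lam j * s j := by group
  rw [e]
  have h1 : (W.ℓ (a ^ lam j * s j) : ℝ) ≤ W.ℓ (a ^ lam j) + W.ℓ (s j) := by
    exact_mod_cast W.mul_le _ _
  have h2 : (W.ℓ (a ^ lam j) : ℝ) = lam j := by
    have := h.good.pow (lam j : ℤ)
    rw [zpow_natCast] at this
    have h3 : |((lam j : ℕ) : ℤ)| = lam j := abs_of_nonneg (by positivity)
    rw [h3] at this
    exact_mod_cast this
  have h3 : (lam j : ℝ) ≤ Λ := by exact_mod_cast h.cor.hi j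
  have h4 := h.cor.short j
  have h5 := R_le h
  linarith

lemma steps_dist (h : Hyp5 W a b δ D R X lam s E Λ) (j : ℤ) (t : ℕ) :
    dist (pt W (X j)) (pt W (X (j + t))) ≤ 2 * Λ * t := by
  induction t with
  | zero => simp
  | succ t ih =>
    have h1 := step_dist h (j + t)
    have h2 := dist_triangle (pt W (X j)) (pt W (X (j + t))) (pt W (X (j + t + 1)))
    have e : j + ((t + 1 : ℕ) : ℤ) = j + t + 1 := by push_cast; ring
    rw [e]
    push_cast
    linarith

lemma steps_dist' (h : Hyp5 W a b δ D R X lam s E Λ) {j k : ℤ} {t : ℕ} (h1 : j ≤ k)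
    (h2 : k ≤ j + t) : dist (pt W (X j)) (pt W (X k)) ≤ 2 * Λ * t := by
  obtain ⟨u, rfl⟩ := Int.le.dest h1
  have h3 := steps_dist h j u
  have h4 : (u : ℝ) ≤ t := by
    have : (u : ℤ) ≤ t := by omega
    exact_mod_cast this
  have h5 := L_pos h
  refine h3.trans ?_
  gcongr

/-- thirteen consecutive deep blocks -/
lemma deep (T : ToolG) (h : Hyp5 W a b δ D R X lam s E Λ) {p q : Pt W} {i k : ℤ}
    (hp : IsProj (3 * Λ) (SX W X) p (pt W (X i))) (hq : IsProj (3 * Λ) (SX W X) q (pt W (X k)))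
    (hik : i ≤ k) (hd : 397 * (Λ : ℝ) ≤ dist (pt W (X i)) (pt W (X k))) :
    ∃ j₁, ∀ j, j₁ ≤ j → j ≤ j₁ + 12 → (E : ℝ) / 2 ≤ pd (Ln W a (X j)) p q := by
  classical
  have hL := L_pos h
  have hex : ∃ t : ℕ, 100 * (Λ : ℝ) ≤ dist (pt W (X i)) (pt W (X (i + t))) := by
    obtain ⟨u, rfl⟩ := Int.le.dest hik
    exact ⟨u, by linarith⟩
  have ht := Nat.find_spec hex
  have hmin := fun t => Nat.find_min (m := t) hex
  set t₀ := Nat.find hex with ht₀
  have ht0 : t₀ ≠ 0 := by
    intro h0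
    rw [h0] at ht
    simp at ht
    linarith
  obtain ⟨t, ht1⟩ := Nat.exists_eq_succ_of_ne_zero ht0
  have hup : dist (pt W (X i)) (pt W (X (i + t₀))) ≤ 102 * Λ := by
    have h1 := hmin t (by omega)
    push Not at h1
    have h2 := step_dist h (i + t)
    have h3 := dist_triangle (pt W (X i)) (pt W (X (i + t))) (pt W (X (i + t + 1)))
    have e : i + (t₀ : ℤ) = i + t + 1 := by rw [ht1]; push_cast; ring
    rw [e]
    linarith
  refine ⟨i + t₀, fun j hj1 hj2 => ?_⟩
  have h13 : dist (pt W (X (i + t₀))) (pt W (X j)) ≤ 2 * Λ * (12 : ℕ) :=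
    steps_dist' h hj1 (by push_cast; omega)
  have h14 : dist (pt W (X (i + t₀))) (pt W (X (j + 1))) ≤ 2 * Λ * (13 : ℕ) :=
    steps_dist' h (by omega) (by push_cast; omega)
  push_cast at h13 h14
  have hjk : j < k := by
    by_contra hcon
    push Not at hcon
    have h5 : i + t₀ ≤ k := by
      by_contra h6
      push Not at h6
      obtain ⟨u, rfl⟩ := Int.le.dest hik
      have h7 := hmin u (by omega)
      exact h7 (by linarith)
    have h8 : dist (pt W (X (i + t₀))) (pt W (X k)) ≤ 2 * Λ * (12 : ℕ) :=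
      steps_dist' h h5 (by push_cast; omega)
    push_cast at h8
    have h9 := dist_triangle (pt W (X i)) (pt W (X (i + t₀))) (pt W (X k))
    linarith
  have d1 : 30 * (Λ : ℝ) ≤ dist (pt W (X i)) (pt W (X j)) := by
    have := dist_triangle (pt W (X i)) (pt W (X j)) (pt W (X (i + t₀)))
    rw [dist_comm (pt W (X j)) (pt W (X (i + t₀)))] at this
    linarith
  have d2 : 30 * (Λ : ℝ) ≤ dist (pt W (X (j + 1))) (pt W (X k)) := by
    have e1 := dist_triangle (pt W (X i)) (pt W (X (i + t₀))) (pt W (X k))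
    have e2 := dist_triangle (pt W (X (i + t₀))) (pt W (X (j + 1))) (pt W (X k))
    linarith
  have h20 := T.mc h p q i j k hp hq (by omega) hjk d1 d2
  have h21 : (E : ℝ) ≤ lam j := by exact_mod_cast h.cor.lo j
  have h22 := h.hE
  have h23 := U_pos h
  linarith

/-- three windows, at least one of them is good -/
lemma pick {N j₁ m₀ ε : ℤ} (hN : 100 ≤ N) (hε : ε = 1 ∨ ε = -1) :
    ∃ d : ℤ, 0 ≤ d ∧ d ≤ 10 ∧ ∀ e, 0 ≤ e → e ≤ 2 →
      ¬ N ∣ (j₁ + d + e) ∧ ¬ N ∣ (m₀ + ε * (d + e)) := by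
  have key1 : ∀ d d' e e' : ℤ, N ∣ j₁ + d + e → N ∣ j₁ + d' + e' → 0 ≤ e → e ≤ 2 → 0 ≤ e' →
      e' ≤ 2 → 0 ≤ d → d' ≤ 10 → d + 5 ≤ d' → False := by
    intro d d' e e' h1 h2 _ _ _ _ _ _ _
    have h3 : N ∣ (j₁ + d' + e') - (j₁ + d + e) := dvd_sub h2 h1
    have h4 := Int.le_of_dvd (by omega) h3
    omega
  have key2 : ∀ d d' e e' : ℤ, N ∣ m₀ + ε * (d + e) → N ∣ m₀ + ε * (d' + e') → 0 ≤ e → e ≤ 2 →
      0 ≤ e' → e' ≤ 2 → 0 ≤ d → d' ≤ 10 → d + 5 ≤ d' → False := by
    intro d d' e e' h1 h2 _ _ _ _ _ _ _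
    have h3 : N ∣ (m₀ + ε * (d' + e')) - (m₀ + ε * (d + e)) := dvd_sub h2 h1
    have h5 : N ∣ (d' + e') - (d + e) := by
      rcases hε with rfl | rfl
      · have : (d' + e') - (d + e) = (m₀ + 1 * (d' + e')) - (m₀ + 1 * (d + e)) := by ring
        rwa [this]
      · have : (d' + e') - (d + e) = -((m₀ + -1 * (d' + e')) - (m₀ + -1 * (d + e))) := by ring
        rw [this]
        exact (dvd_neg).mpr h3
    have h4 := Int.le_of_dvd (by omega) h5
    omega
  by_contra hcon
  push Not at hcon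
  obtain ⟨e0, a0, b0, c0⟩ := hcon 0 (by norm_num) (by norm_num)
  obtain ⟨e1, a1, b1, c1⟩ := hcon 5 (by norm_num) (by norm_num)
  obtain ⟨e2, a2, b2, c2⟩ := hcon 10 (by norm_num) (by norm_num)
  by_cases g0 : N ∣ j₁ + 0 + e0
  · by_cases g1 : N ∣ j₁ + 5 + e1
    · exact key1 0 5 e0 e1 g0 g1 a0 b0 a1 b1 (by norm_num) (by norm_num) (by norm_num)
    · by_cases g2 : N ∣ j₁ + 10 + e2
      · exact key1 0 10 e0 e2 g0 g2 a0 b0 a2 b2 (by norm_num) (by norm_num) (by norm_num)
      · exact key2 5 10 e1 e2 (c1 g1) (c2 g2) a1 b1 a2 b2 (by norm_num) (by norm_num)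
          (by norm_num)
  · by_cases g1 : N ∣ j₁ + 5 + e1
    · by_cases g2 : N ∣ j₁ + 10 + e2
      · exact key1 5 10 e1 e2 g1 g2 a1 b1 a2 b2 (by norm_num) (by norm_num) (by norm_num)
      · exact key2 0 10 e0 e2 (c0 g0) (c2 g2) a0 b0 a2 b2 (by norm_num) (by norm_num)
          (by norm_num)
    · exact key2 0 5 e0 e1 (c0 g0) (c1 g1) a0 b0 a1 b1 (by norm_num) (by norm_num)
        (by norm_num)

lemma a_pow_inj (h : Good W a b δ D) {k l : ℕ} (hkl : a ^ k = a ^ l) : k = l := by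
  have h1 := h.pow ((k : ℤ) - l)
  rw [zpow_sub, zpow_natCast, zpow_natCast, hkl, mul_inv_cancel, W.one'] at h1
  have h2 : |(k : ℤ) - l| = 0 := by rw [← h1]; rfl
  rw [abs_eq_zero] at h2
  omega

lemma b_pow_notMem (h : Good W a b δ D) {κ : ℕ} (hκ : κ = 1 ∨ κ = 2) :
    b ^ κ ∉ Subgroup.zpowers a := by
  intro hm
  obtain ⟨m, hm⟩ := Subgroup.mem_zpowers_iff.mp hm
  have hk : (0 : ℤ) < κ ∧ (κ : ℤ) ≤ 3 := by omega
  refine h.dc κ 0 m 0 (by rw [abs_of_nonneg (by omega)]; exact hk.2) (by norm_num) (by omega) ?_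
  rw [zpow_natCast, ← hm]
  simp

end basics

section relator

variable {Γ : Type} [Group Γ] {W : WNorm Γ} {a b : Γ} {δ D R : ℝ}
  {n E l0 κ : ℕ} {g : Γ}

lemma mod_eq_n {j : ℤ} (h : j % ((n : ℤ) + 1) = n) : ((n : ℤ) + 1) ∣ j + 1 := by
  rw [Int.dvd_iff_emod_eq_zero, Int.add_emod, h]
  rcases Nat.eq_zero_or_pos n with rfl | hn
  · simp
  · rw [Int.emod_eq_of_lt (a := 1) (by norm_num) (by omega), Int.emod_self]

lemma sr_eq {j : ℤ} (h : ¬ ((n : ℤ) + 1) ∣ j + 1) : sr b n κ g j = b ^ κ := by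
  unfold sr
  rw [if_neg]
  intro h1
  exact h (mod_eq_n h1)

lemma lamr_eq {j : ℤ} (h : ¬ ((n : ℤ) + 1) ∣ j) :
    lamr n E l0 j = ((j % ((n : ℤ) + 1)).toNat + 1) * E := by
  unfold lamr lamt
  have h1 : 0 ≤ j % ((n : ℤ) + 1) := Int.emod_nonneg _ (by omega)
  have h2 : j % ((n : ℤ) + 1) ≠ 0 := fun h3 => h (Int.dvd_of_emod_eq_zero h3)
  rw [if_neg (by omega)]

theorem rsmall : ToolG → S_rcor → S_rsmall := by
  intro T hrc Γ _ W a b δ D R n E l0 κ g hR x hx i' k'
  obtain ⟨H, -⟩ := hrc hR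
  set X := Xr a b n E l0 κ g with hX
  set lam := lamr n E l0 with hlam
  set s := sr b n κ g with hs
  set Λ := LL n E with hΛ
  have H' := hyp5_smul H x
  have hn : (100 : ℤ) ≤ (n : ℤ) + 1 := by
    have := hR.bd.hn
    have h2 : (10 : ℕ) ^ 13 ≤ n := this
    have h3 : (100 : ℕ) ≤ n := le_trans (by norm_num) h2
    omega
  have hne : (SX W X).Nonempty := ⟨pt W (X 0), 0, rfl⟩
  have hLne : ∀ v : Γ, (Ln W a v).Nonempty := fun v => ⟨pt W (v * a ^ (0 : ℤ)), 0, rfl⟩
  -- the matching lemma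
  have main : ∀ (p q : Pt W) (i k : ℤ), IsProj (3 * Λ) (SX W X) p (pt W (X i)) →
      IsProj (3 * Λ) (SX W X) q (pt W (X k)) → i ≤ k →
      397 * (Λ : ℝ) ≤ dist (pt W (X i)) (pt W (X k)) →
      (∀ v : Γ, (E : ℝ) / 2 ≤ pd (Ln W a v) p q → 
        (E : ℝ) / 2 ≤ pd (Ln W a v) (pt W (x * X i')) (pt W (x * X k'))) → False := by
    intro p q i k hp hq hik hd hpq
    obtain ⟨j₁, hj₁⟩ := deep T H hp hq hik hd
    have hm : ∀ j, j₁ ≤ j → j ≤ j₁ + 12 → ∃ m, (X j)⁻¹ * (x * X m) ∈ Subgroup.zpowers a := by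
      intro j h1 h2
      have h3 := hpq _ (hj₁ j h1 h2)
      rcases le_total i' k' with h4 | h4
      · obtain ⟨m, -, -, h5⟩ := T.m2 H' (X j) i' k' h4 h3
        exact ⟨m, h5⟩
      · rw [pd_symm (hLne _)] at h3
        obtain ⟨m, -, -, h5⟩ := T.m2 H' (X j) k' i' h4 h3
        exact ⟨m, h5⟩
    obtain ⟨m₀, ε, hε, hrun⟩ := T.run H H' j₁ (j₁ + 12) (by omega) hm
    obtain ⟨d, hd0, hd1, hd2⟩ := pick (j₁ := j₁) (m₀ := m₀) hn hε
    rcases hε with rfl | rfl
    · -- parallel
      set j := j₁ + d with hj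
      set m := m₀ + d with hmm
      have r0 : (X j)⁻¹ * (x * X m) ∈ Subgroup.zpowers a := by
        have := hrun j (by omega) (by omega)
        have e : m₀ + 1 * (j - j₁) = m := by omega
        rwa [e] at this
      have r1 : (X (j + 1))⁻¹ * (x * X (m + 1)) ∈ Subgroup.zpowers a := by
        have := hrun (j + 1) (by omega) (by omega)
        have e : m₀ + 1 * (j + 1 - j₁) = m + 1 := by omega
        rwa [e] at this
      have r2 : (X (j + 2))⁻¹ * (x * X (m + 2)) ∈ Subgroup.zpowers a := by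
        have := hrun (j + 2) (by omega) (by omega)
        have e : m₀ + 1 * (j + 2 - j₁) = m + 2 := by omega
        rwa [e] at this
      have n1 : ¬ ((n : ℤ) + 1) ∣ j + 1 := (hd2 1 (by norm_num) (by norm_num)).1
      have n2 : ¬ ((n : ℤ) + 1) ∣ (j + 1) + 1 := by
        have := (hd2 2 (by norm_num) (by norm_num)).1
        have e : (j + 1) + 1 = j₁ + d + 2 := by omega
        rwa [e]
      have m1 : ¬ ((n : ℤ) + 1) ∣ m + 1 := by
        have := (hd2 1 (by norm_num) (by norm_num)).2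
        have e : m + 1 = m₀ + 1 * (d + 1) := by omega
        rwa [e]
      have m2 : ¬ ((n : ℤ) + 1) ∣ (m + 1) + 1 := by
        have := (hd2 2 (by norm_num) (by norm_num)).2
        have e : (m + 1) + 1 = m₀ + 1 * (d + 2) := by omega
        rwa [e]
      have s0 : X (j + 1) = X j * a ^ lam j * b ^ κ := by
        rw [H.cor.step, hs, sr_eq n1]
      have s1 : X (j + 2) = X (j + 1) * a ^ lam (j + 1) * b ^ κ := by
        have := H.cor.step (j + 1)
        rw [hs, sr_eq n2, show j + 1 + 1 = j + 2 by ring] at this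
        exact this
      have t0 : X (m + 1) = X m * a ^ lam m * b ^ κ := by
        rw [H.cor.step, hs, sr_eq m1]
      have t1 : X (m + 2) = X (m + 1) * a ^ lam (m + 1) * b ^ κ := by
        have := H.cor.step (m + 1)
        rw [hs, sr_eq m2, show m + 1 + 1 = m + 2 by ring] at this
        exact this
      have hb := b_pow_notMem H.good hR.bd.hκ
      have e1 : X (j + 1) = x * X (m + 1) := by
        have := T.algp H.good (X j) (x * X m) (b ^ κ) (lam j) (lam m) hb r0 (by
          rw [zpow_natCast, zpow_natCast, ← s0]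
          rw [t0] at r1
          have e : x * X m * a ^ lam m * b ^ κ = x * (X m * a ^ lam m * b ^ κ) := by group
          rw [e]; exact r1)
        rw [zpow_natCast, zpow_natCast, ← s0] at this
        rw [this, t0]; group
      have e2 : X (j + 2) = x * X (m + 2) := by
        have := T.algp H.good (X (j + 1)) (x * X (m + 1)) (b ^ κ) (lam (j + 1)) (lam (m + 1)) hb
          r1 (by
          rw [zpow_natCast, zpow_natCast, ← s1]
          rw [t1] at r2
          have e : x * X (m + 1) * a ^ lam (m + 1) * b ^ κ =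
            x * (X (m + 1) * a ^ lam (m + 1) * b ^ κ) := by group
          rw [e]; exact r2)
        rw [zpow_natCast, zpow_natCast, ← s1] at this
        rw [this, t1]; group
      have e3 : a ^ lam (j + 1) = a ^ lam (m + 1) := by
        rw [s1, t1, ← mul_assoc, ← mul_assoc, ← e1] at e2
        have := mul_right_cancel e2
        exact mul_left_cancel this
      have e4 := a_pow_inj H.good e3
      rw [hlam, lamr_eq n1, lamr_eq m1] at e4
      have hE : 0 < E := by exact_mod_cast E_pos H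
      have e5 : ((j + 1) % ((n : ℤ) + 1)).toNat = ((m + 1) % ((n : ℤ) + 1)).toNat := by
        have := Nat.eq_of_mul_eq_mul_right hE e4
        omega
      apply hx
      rw [hX] at e1
      unfold Xr at e1
      rw [e5, ← mul_assoc] at e1
      have e6 := mul_right_cancel e1
      rw [Subgroup.mem_zpowers_iff]
      refine ⟨(j + 1) / ((n : ℤ) + 1) - (m + 1) / ((n : ℤ) + 1), ?_⟩
      rw [zpow_sub, e6]
      group
    · -- antiparallel
      set j := j₁ + d with hj
      set m := m₀ - d with hmm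
      have r0 : (X j)⁻¹ * (x * X m) ∈ Subgroup.zpowers a := by
        have := hrun j (by omega) (by omega)
        have e : m₀ + -1 * (j - j₁) = m := by omega
        rwa [e] at this
      have r1 : (X (j + 1))⁻¹ * (x * X (m - 1)) ∈ Subgroup.zpowers a := by
        have := hrun (j + 1) (by omega) (by omega)
        have e : m₀ + -1 * (j + 1 - j₁) = m - 1 := by omega
        rwa [e] at this
      have n1 : ¬ ((n : ℤ) + 1) ∣ j + 1 := (hd2 1 (by norm_num) (by norm_num)).1
      have m0 : ¬ ((n : ℤ) + 1) ∣ (m - 1) + 1 := by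
        have := (hd2 0 (by norm_num) (by norm_num)).2
        have e : (m - 1) + 1 = m₀ + -1 * (d + 0) := by omega
        rwa [e]
      have s0 : X (j + 1) = X j * a ^ lam j * b ^ κ := by
        rw [H.cor.step, hs, sr_eq n1]
      have t0 : X m = X (m - 1) * a ^ lam (m - 1) * b ^ κ := by
        have := H.cor.step (m - 1)
        rw [hs, sr_eq m0, show m - 1 + 1 = m by ring] at this
        exact this
      have hκ1 : 1 ≤ κ ∧ κ ≤ 3 := by
        have := hR.bd.hκ
        omega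
      refine T.algm H.good (X j) (x * X (m - 1)) κ κ (lam j) (lam (m - 1)) hκ1.1 hκ1.2 hκ1.1
        hκ1.2 ?_ ?_
      · rw [zpow_natCast]
        rw [t0] at r0
        have e : x * X (m - 1) * a ^ lam (m - 1) * b ^ κ =
          x * (X (m - 1) * a ^ lam (m - 1) * b ^ κ) := by group
        rw [e]; exact r0
      · rw [zpow_natCast, ← s0]
        exact r1
  by_contra hcon
  push Not at hcon
  obtain ⟨p', hp'⟩ := T.cproj H (pt W (x * X i'))
  obtain ⟨q', hq'⟩ := T.cproj H (pt W (x * X k'))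
  obtain ⟨i, rfl⟩ := hp'.1
  obtain ⟨k, rfl⟩ := hq'.1
  simp only at hp' hq'
  have h1 := pd_le_of_proj hp' hq'
  have h2 : 397 * (Λ : ℝ) ≤ dist (pt W (X i)) (pt W (X k)) := by linarith
  rcases le_total i k with h3 | h3
  · exact main _ _ i k hp' hq' h3 h2 (fun v hv => hv)
  · rw [dist_comm] at h2
    exact main _ _ k i hq' hp' h3 h2 (fun v hv => by rwa [pd_symm (hLne _)] at hv)

end relator

end Pool.Agent.H767.QF

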